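import Mathlib

set_option autoImplicit false

/-! Multispecies TASEP on a ring, in the conventions of problem MP_01b7fc_pr.
Positions `1, …, n` are `0, …, n-1 : Fin n`, and classes `1, …, n` are `0, …, n-1 : Fin n`. -/

namespace Pool.Agent.Helper58.Tasep

/-- A word that is a permutation of the classes: `w p` is the entry at position `p` of the ring. -/
abbrev Word (n : ℕ) : Type := Equiv.Perm (Fin n)

/-- The cyclic left neighbour of a position: `p - 1`, and the last position if `p` is the first. -/
def leftPos {n : ℕ} (p : Fin n) : Fin n := (finRotate n).symm p

/-- What the word becomes when the clock of entry `i` rings: `i` swaps places with its cyclic left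
neighbour if that neighbour is larger than `i`, and otherwise nothing happens. -/
def jump {n : ℕ} (w : Word n) (i : Fin n) : Word n :=
  if i < w (leftPos (w.symm i)) then w * Equiv.swap (leftPos (w.symm i)) (w.symm i) else w

/-- Generator of the chain in which entry `i` carries a clock of rate `1 / t i`. -/
noncomputable def generator {n : ℕ} (t : Fin n → ℝ) (f : Word n → ℝ) (w : Word n) : ℝ :=
  ∑ i, (1 / t i) * (f (jump w i) - f w)

/-- `π` is a stationary distribution of the chain with inverse rates `t`: a probability
vector with `∑ w, π w * (L f) w = 0` for every function `f`, where `L` is the generator. -/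
structure IsStationary {n : ℕ} (t : Fin n → ℝ) (π : Word n → ℝ) : Prop where
  nonneg : ∀ w, 0 ≤ π w
  sum_eq_one : ∑ w, π w = 1
  invariant : ∀ f : Word n → ℝ, ∑ w, π w * generator t f w = 0

/-- Probability of an event. -/
noncomputable def prob {n : ℕ} (π : Word n → ℝ) (A : Set (Word n)) : ℝ := ∑ w, A.indicator π w

/-- Conditional probability of `A` given `B`. -/
noncomputable def condProb {n : ℕ} (π : Word n → ℝ) (A B : Set (Word n)) : ℝ :=
  prob π (A ∩ B) / prob π B

/-- The event that each of the `k` small entries `i` (classes `1, …, k` of the problem, that is,
`i.val < k` here) sits at the prescribed position `e i`. -/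
def placed {n k : ℕ} (e : {i : Fin n // i.val < k} → Fin n) : Set (Word n) :=
  {w | ∀ i, w (e i) = i.val}

/-- The large entries, in increasing order. -/
def largeEntries (n k : ℕ) : List (Fin n) := (List.finRange n).filter (fun a => decide (k ≤ a.val))

/-- The arrangement of the large entries in `w`: the entries at positions `1, …, n` in order, with
the small entries left out. -/
def arrangement {n : ℕ} (k : ℕ) (w : Word n) : List (Fin n) :=
  (List.ofFn w).filter (fun a => decide (k ≤ a.val))

/-- The possible arrangements: all the orderings of the large entries. -/
def IsArrangement {n : ℕ} (k : ℕ) (σ : List (Fin n)) : Prop := σ.Perm (largeEntries n k)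

/-- A cyclic rotation of `(k+1)(k+2)⋯n`. -/
def CyclicallyAscending {n : ℕ} (k : ℕ) (σ : List (Fin n)) : Prop :=
  σ.IsRotated (largeEntries n k)

/-- A cyclic rotation of `n(n-1)⋯(k+1)`. -/
def CyclicallyDescending {n : ℕ} (k : ℕ) (σ : List (Fin n)) : Prop :=
  σ.IsRotated (largeEntries n k).reverse

/-- Conditional probability that the arrangement of the large entries is `σ`, given the positions
`e` of the small ones. -/
noncomputable def arrProb {n k : ℕ} (π : Word n → ℝ) (e : {i : Fin n // i.val < k} → Fin n)
    (σ : List (Fin n)) : ℝ :=
  condProb π {w | arrangement k w = σ} (placed e)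

/-- The maximum of the conditional probability is attained at a cyclically ascending
arrangement. -/
def MaxAtAscending {n k : ℕ} (π : Word n → ℝ) (e : {i : Fin n // i.val < k} → Fin n) : Prop :=
  ∃ σ : List (Fin n), CyclicallyAscending k σ ∧
    ∀ τ : List (Fin n), IsArrangement k τ → arrProb π e τ ≤ arrProb π e σ

/-- The minimum of the conditional probability is attained at a cyclically descending
arrangement. -/
def MinAtDescending {n k : ℕ} (π : Word n → ℝ) (e : {i : Fin n // i.val < k} → Fin n) : Prop :=
  ∃ σ : List (Fin n), CyclicallyDescending k σ ∧
    ∀ τ : List (Fin n), IsArrangement k τ → arrProb π e σ ≤ arrProb π e τ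

end Pool.Agent.Helper58.Tasep
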