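import Pool.Agent.Helper58.TasepSixB

set_option autoImplicit false

namespace Pool.Agent.Helper58.Tasep

open Finset

lemma prob_single {n : ℕ} (π : Word n → ℝ) (A : Set (Word n)) (w1 : Word n)
    (h : ∀ w, w ∈ A ↔ w = w1) : prob π A = π w1 := by
  classical
  unfold prob
  rw [Finset.sum_eq_single w1]
  · rw [Set.indicator_of_mem ((h w1).2 rfl)]
  · intro w _ hw
    rw [Set.indicator_of_notMem]
    intro hmem
    exact hw ((h w).1 hmem)
  · intro h; exact absurd (Finset.mem_univ _) h

lemma prob_pos {n : ℕ} (π : Word n → ℝ) (hπ : ∀ w, 0 < π w) (A : Set (Word n)) (w1 : Word n)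
    (h : w1 ∈ A) : 0 < prob π A := by
  classical
  unfold prob
  refine Finset.sum_pos' (fun w _ => ?_) ⟨w1, Finset.mem_univ _, ?_⟩
  · exact Set.indicator_nonneg (fun w _ => (hπ w).le) w
  · rw [Set.indicator_of_mem h]; exact hπ w1

/-- class `0` at position `0` and class `1` at position `q` -/
def place (q : Fin 6) (i : {i : Fin 6 // i.val < 2}) : Fin 6 := if i.val = 0 then 0 else q

lemma mem_placed_iff (q : Fin 6) (w : Word 6) :
    w ∈ placed (place q) ↔ (w 0 = 0 ∧ w q = 1) := by
  constructor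
  · intro h
    refine ⟨?_, ?_⟩
    · simpa [place] using h ⟨0, by decide⟩
    · simpa [place] using h ⟨1, by decide⟩
  · rintro ⟨h0, h1⟩ ⟨i, hi⟩
    have : i = 0 ∨ i = 1 := by
      revert i; decide
    rcases this with rfl | rfl
    · simpa [place] using h0
    · simpa [place] using h1

lemma place_injective (q : Fin 6) (hq : q ≠ 0) : Function.Injective (place q) := by
  rintro ⟨i, hi⟩ ⟨j, hj⟩ h
  have hi' : i = 0 ∨ i = 1 := by clear h; revert i; decide
  have hj' : j = 0 ∨ j = 1 := by clear h; revert j; decide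
  rcases hi' with rfl | rfl <;> rcases hj' with rfl | rfl
  · rfl
  · exfalso; simp [place] at h; exact hq h.symm
  · exfalso; simp [place] at h; exact hq h
  · rfl

lemma two_le_of_ne (a : Fin 6) (h0 : a ≠ 0) (h1 : a ≠ 1) : 2 ≤ a.val := by
  revert a; decide

lemma arrangement_four (w : Word 6) (h0 : w 0 = 0) (h4 : w 4 = 1) :
    arrangement 2 w = [w 1, w 2, w 3, w 5] := by
  have hne : ∀ i : Fin 6, i ≠ 0 → i ≠ 4 → 2 ≤ (w i).val := by
    intro i hi0 hi4
    refine two_le_of_ne _ ?_ ?_
    · rw [← h0]; exact fun h => hi0 (w.injective h)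
    · rw [← h4]; exact fun h => hi4 (w.injective h)
  have e : List.ofFn w = [w 0, w 1, w 2, w 3, w 4, w 5] := by
    simp [List.ofFn_succ]
  unfold arrangement
  rw [e, h0, h4]
  simp [hne 1 (by decide) (by decide), hne 2 (by decide) (by decide),
    hne 3 (by decide) (by decide), hne 5 (by decide) (by decide)]

lemma arrangement_three (w : Word 6) (h0 : w 0 = 0) (h3 : w 3 = 1) :
    arrangement 2 w = [w 1, w 2, w 4, w 5] := by
  have hne : ∀ i : Fin 6, i ≠ 0 → i ≠ 3 → 2 ≤ (w i).val := by
    intro i hi0 hi4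
    refine two_le_of_ne _ ?_ ?_
    · rw [← h0]; exact fun h => hi0 (w.injective h)
    · rw [← h3]; exact fun h => hi4 (w.injective h)
  have e : List.ofFn w = [w 0, w 1, w 2, w 3, w 4, w 5] := by
    simp [List.ofFn_succ]
  unfold arrangement
  rw [e, h0, h3]
  simp [hne 1 (by decide) (by decide), hne 2 (by decide) (by decide),
    hne 4 (by decide) (by decide), hne 5 (by decide) (by decide)]

lemma large_six : largeEntries 6 2 = [2, 3, 4, 5] := by decide

lemma desc_cases (σ : List (Fin 6)) (h : CyclicallyDescending 2 σ) :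
    σ = [5, 4, 3, 2] ∨ σ = [4, 3, 2, 5] ∨ σ = [3, 2, 5, 4] ∨ σ = [2, 5, 4, 3] := by
  unfold CyclicallyDescending at h
  rw [large_six] at h
  have h2 := (List.isRotated_iff_mem_map_range.1 h.symm)
  have e : (List.range (([2, 3, 4, 5] : List (Fin 6)).reverse.length + 1)).map
      (([2, 3, 4, 5] : List (Fin 6)).reverse.rotate) =
      [[5, 4, 3, 2], [4, 3, 2, 5], [3, 2, 5, 4], [2, 5, 4, 3], [5, 4, 3, 2]] := by decide
  rw [e] at h2
  simp only [List.mem_cons, List.not_mem_nil, or_false] at h2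
  tauto

lemma asc_cases (σ : List (Fin 6)) (h : CyclicallyAscending 2 σ) :
    σ = [2, 3, 4, 5] ∨ σ = [3, 4, 5, 2] ∨ σ = [4, 5, 2, 3] ∨ σ = [5, 2, 3, 4] := by
  unfold CyclicallyAscending at h
  rw [large_six] at h
  have h2 := (List.isRotated_iff_mem_map_range.1 h.symm)
  have e : (List.range (([2, 3, 4, 5] : List (Fin 6)).length + 1)).map
      (([2, 3, 4, 5] : List (Fin 6)).rotate) =
      [[2, 3, 4, 5], [3, 4, 5, 2], [4, 5, 2, 3], [5, 2, 3, 4], [2, 3, 4, 5]] := by decide
  rw [e] at h2
  simp only [List.mem_cons, List.not_mem_nil, or_false] at h2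
  tauto

/-- the word with given entries -/
def mkWord (g : Fin 6 → Fin 6) (g' : Fin 6 → Fin 6) (h1 : ∀ i, g' (g i) = i)
    (h2 : ∀ i, g (g' i) = i) : Word 6 := ⟨g, g', h1, h2⟩

/-- the probability of an arrangement given class `0` at `0` and class `1` at `4` -/
lemma arrProb_four (π : Word 6 → ℝ) (σ : List (Fin 6)) (w1 : Word 6) (h0 : w1 0 = 0)
    (h4 : w1 4 = 1) (hσ : σ = [w1 1, w1 2, w1 3, w1 5]) :
    arrProb π (place 4) σ = π w1 / prob π (placed (place 4)) := by
  unfold arrProb condProb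
  rw [prob_single π _ w1]
  intro w
  constructor
  · rintro ⟨ha, hb⟩
    rw [mem_placed_iff] at hb
    change arrangement 2 w = σ at ha
    rw [arrangement_four w hb.1 hb.2, hσ] at ha
    simp only [List.cons.injEq, and_true] at ha
    obtain ⟨a1, a2, a3, a5⟩ := ha
    refine Equiv.ext fun i => ?_
    fin_cases i
    · show w 0 = w1 0
      rw [hb.1, h0]
    · exact a1
    · exact a2
    · exact a3
    · show w 4 = w1 4
      rw [hb.2, h4]
    · exact a5
  · rintro rfl
    refine ⟨?_, (mem_placed_iff 4 w).2 ⟨h0, h4⟩⟩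
    show arrangement 2 w = σ
    rw [arrangement_four w h0 h4, hσ]

/-- the probability of an arrangement given class `0` at `0` and class `1` at `3` -/
lemma arrProb_three (π : Word 6 → ℝ) (σ : List (Fin 6)) (w1 : Word 6) (h0 : w1 0 = 0)
    (h3 : w1 3 = 1) (hσ : σ = [w1 1, w1 2, w1 4, w1 5]) :
    arrProb π (place 3) σ = π w1 / prob π (placed (place 3)) := by
  unfold arrProb condProb
  rw [prob_single π _ w1]
  intro w
  constructor
  · rintro ⟨ha, hb⟩
    rw [mem_placed_iff] at hb
    change arrangement 2 w = σ at ha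
    rw [arrangement_three w hb.1 hb.2, hσ] at ha
    simp only [List.cons.injEq, and_true] at ha
    obtain ⟨a1, a2, a4, a5⟩ := ha
    refine Equiv.ext fun i => ?_
    fin_cases i
    · show w 0 = w1 0
      rw [hb.1, h0]
    · exact a1
    · exact a2
    · show w 3 = w1 3
      rw [hb.2, h3]
    · exact a4
    · exact a5
  · rintro rfl
    refine ⟨?_, (mem_placed_iff 3 w).2 ⟨h0, h3⟩⟩
    show arrangement 2 w = σ
    rw [arrangement_three w h0 h3, hσ]

end Pool.Agent.Helper58.Tasep
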