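import Pool.Agent.Helper58.TasepDefs

set_option autoImplicit false

namespace Pool.Agent.Helper58.Tasep

open Finset

variable {n : ℕ}

/-- the word with the entries at `leftPos p` and `p` swapped -/
def sw (w : Word n) (p : Fin n) : Word n := w * Equiv.swap (leftPos p) p

lemma sw_sw (w : Word n) (p : Fin n) : sw (sw w p) p = w := by
  unfold sw
  rw [mul_assoc, Equiv.swap_mul_self, mul_one]

lemma sw_apply_self (w : Word n) (p : Fin n) : sw w p p = w (leftPos p) := by
  simp [sw]

lemma sw_apply_left (w : Word n) (p : Fin n) : sw w p (leftPos p) = w p := by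
  simp [sw]

lemma jump_apply_entry (w : Word n) (p : Fin n) :
    jump w (w p) = if w p < w (leftPos p) then sw w p else w := by
  unfold jump sw
  rw [Equiv.symm_apply_apply]

/-- rate of flow into the word `w` -/
noncomputable def inflow (x : Fin n → ℝ) (u : Word n → ℝ) (w : Word n) : ℝ :=
  ∑ p, if w (leftPos p) < w p then x (w (leftPos p)) * u (sw w p) else 0

/-- exit rate of the word `w` -/
noncomputable def outRate (x : Fin n → ℝ) (w : Word n) : ℝ :=
  ∑ p, if w p < w (leftPos p) then x (w p) else 0

/-- the weak form of stationarity equals the strong (balance) form, tested against `f` -/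
lemma weak_eq_strong (t : Fin n → ℝ) (u f : Word n → ℝ) :
    ∑ w, u w * generator t f w =
      ∑ w, f w * (inflow (fun i => 1 / t i) u w - u w * outRate (fun i => 1 / t i) w) := by
  set x : Fin n → ℝ := fun i => 1 / t i with hx
  have h1 : ∀ w : Word n, generator t f w =
      ∑ p, if w p < w (leftPos p) then x (w p) * (f (sw w p) - f w) else 0 := by
    intro w
    unfold generator
    rw [← Equiv.sum_comp w]
    refine Finset.sum_congr rfl fun p _ => ?_
    rw [jump_apply_entry]
    split_ifs with h
    · rfl
    · simp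
  have h2 : ∀ p : Fin n, ∑ w : Word n, (if w p < w (leftPos p) then u w * (x (w p) * f (sw w p)) else 0)
      = ∑ w : Word n, f w * (if w (leftPos p) < w p then x (w (leftPos p)) * u (sw w p) else 0) := by
    intro p
    have hinv : Function.Involutive (fun w : Word n => sw w p) := fun w => sw_sw w p
    rw [← Equiv.sum_comp (Function.Involutive.toPerm _ hinv)]
    refine Finset.sum_congr rfl fun w _ => ?_
    have e1 : (Function.Involutive.toPerm (fun w : Word n => sw w p) hinv) w = sw w p := rfl
    rw [e1, sw_apply_self, sw_apply_left, sw_sw]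
    split_ifs <;> ring
  calc ∑ w, u w * generator t f w
      = ∑ w : Word n, ∑ p, ((if w p < w (leftPos p) then u w * (x (w p) * f (sw w p)) else 0)
          - f w * (u w * (if w p < w (leftPos p) then x (w p) else 0))) := by
        refine Finset.sum_congr rfl fun w _ => ?_
        rw [h1 w, Finset.mul_sum]
        refine Finset.sum_congr rfl fun p _ => ?_
        split_ifs <;> ring
    _ = ∑ p, ∑ w : Word n, ((if w p < w (leftPos p) then u w * (x (w p) * f (sw w p)) else 0)
          - f w * (u w * (if w p < w (leftPos p) then x (w p) else 0))) := Finset.sum_comm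
    _ = ∑ p, ∑ w : Word n, (f w * (if w (leftPos p) < w p then x (w (leftPos p)) * u (sw w p) else 0)
          - f w * (u w * (if w p < w (leftPos p) then x (w p) else 0))) := by
        refine Finset.sum_congr rfl fun p _ => ?_
        rw [Finset.sum_sub_distrib, Finset.sum_sub_distrib, h2 p]
    _ = ∑ w : Word n, ∑ p, (f w * (if w (leftPos p) < w p then x (w (leftPos p)) * u (sw w p) else 0)
          - f w * (u w * (if w p < w (leftPos p) then x (w p) else 0))) := Finset.sum_comm
    _ = ∑ w, f w * (inflow x u w - u w * outRate x w) := by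
        refine Finset.sum_congr rfl fun w _ => ?_
        unfold inflow outRate
        rw [Finset.sum_sub_distrib, mul_sub, Finset.mul_sum, Finset.mul_sum, Finset.mul_sum]

/-- balance form -/
def Balanced (x : Fin n → ℝ) (u : Word n → ℝ) : Prop := ∀ w, inflow x u w = u w * outRate x w

lemma balanced_of_weak (t : Fin n → ℝ) (u : Word n → ℝ)
    (h : ∀ f : Word n → ℝ, ∑ w, u w * generator t f w = 0) :
    Balanced (fun i => 1 / t i) u := by
  classical
  intro w0
  have h0 := h (fun w => if w = w0 then 1 else 0)
  rw [weak_eq_strong] at h0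
  simp only [ite_mul, one_mul, zero_mul, Finset.sum_ite_eq', Finset.mem_univ, if_true] at h0
  linarith

lemma weak_of_balanced (t : Fin n → ℝ) (u : Word n → ℝ) (h : Balanced (fun i => 1 / t i) u) :
    ∀ f : Word n → ℝ, ∑ w, u w * generator t f w = 0 := by
  intro f
  rw [weak_eq_strong]
  refine Finset.sum_eq_zero fun w _ => ?_
  rw [h w]; ring

/-- total inflow equals total outflow, for every `u` -/
lemma sum_inflow (x : Fin n → ℝ) (u : Word n → ℝ) :
    ∑ w, inflow x u w = ∑ w, u w * outRate x w := by
  have h := weak_eq_strong (fun i => 1 / x i) u (fun _ => 1)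
  have e : (fun i => 1 / (1 / x i)) = x := by funext i; simp
  simp only [e] at h
  have h2 : ∑ w, u w * generator (fun i => 1 / x i) (fun _ => (1:ℝ)) w = 0 := by
    refine Finset.sum_eq_zero fun w _ => ?_
    simp [generator]
  rw [h2] at h
  have h3 : ∑ w, (1:ℝ) * (inflow x u w - u w * outRate x w)
      = ∑ w, inflow x u w - ∑ w, u w * outRate x w := by
    rw [← Finset.sum_sub_distrib]; simp
  rw [h3] at h
  linarith

lemma outRate_nonneg (x : Fin n → ℝ) (hx : ∀ i, 0 < x i) (w : Word n) : 0 ≤ outRate x w := by
  unfold outRate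
  refine Finset.sum_nonneg fun p _ => ?_
  split_ifs
  · exact (hx _).le
  · exact le_refl _

lemma balanced_abs (x : Fin n → ℝ) (hx : ∀ i, 0 < x i) (u : Word n → ℝ) (h : Balanced x u) :
    Balanced x (fun w => |u w|) := by
  have hle : ∀ w ∈ (Finset.univ : Finset (Word n)), |u w| * outRate x w ≤ inflow x (fun w => |u w|) w := by
    intro w _
    have h1 : |u w| * outRate x w = |inflow x u w| := by
      rw [h w, abs_mul, abs_of_nonneg (outRate_nonneg x hx w)]
    rw [h1]
    unfold inflow
    refine (Finset.abs_sum_le_sum_abs _ _).trans (Finset.sum_le_sum fun p _ => ?_)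
    split_ifs
    · rw [abs_mul, abs_of_pos (hx _)]
    · simp
  have hsum : ∑ w, |u w| * outRate x w = ∑ w, inflow x (fun w => |u w|) w :=
    (sum_inflow x (fun w => |u w|)).symm
  have := (Finset.sum_eq_sum_iff_of_le hle).1 hsum
  intro w
  exact (this w (Finset.mem_univ _)).symm

lemma balanced_add (x : Fin n → ℝ) (u v : Word n → ℝ) (hu : Balanced x u) (hv : Balanced x v) :
    Balanced x (fun w => u w + v w) := by
  intro w
  have h1 := hu w
  have h2 := hv w
  have : inflow x (fun w => u w + v w) w = inflow x u w + inflow x v w := by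
    unfold inflow
    rw [← Finset.sum_add_distrib]
    refine Finset.sum_congr rfl fun p _ => ?_
    split_ifs <;> ring
  rw [this, h1, h2]; ring

lemma balanced_smul (x : Fin n → ℝ) (c : ℝ) (u : Word n → ℝ) (hu : Balanced x u) :
    Balanced x (fun w => c * u w) := by
  intro w
  have h1 := hu w
  have : inflow x (fun w => c * u w) w = c * inflow x u w := by
    unfold inflow
    rw [Finset.mul_sum]
    refine Finset.sum_congr rfl fun p _ => ?_
    split_ifs <;> ring
  rw [this, h1]; ring

/-- positivity propagates along jumps -/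
lemma pos_step (x : Fin n → ℝ) (hx : ∀ i, 0 < x i) (g : Word n → ℝ) (hg : ∀ w, 0 ≤ g w)
    (hb : Balanced x g) (w : Word n) (p : Fin n) (hp : w p < w (leftPos p)) (hw : 0 < g w) :
    0 < g (sw w p) := by
  have h1 : 0 < inflow x g (sw w p) := by
    unfold inflow
    refine Finset.sum_pos' (fun q _ => ?_) ⟨p, Finset.mem_univ _, ?_⟩
    · split_ifs
      · exact mul_nonneg (hx _).le (hg _)
      · exact le_refl _
    · rw [sw_apply_self, sw_apply_left, if_pos hp, sw_sw]
      exact mul_pos (hx _) hw
  rw [hb (sw w p)] at h1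
  rcases (hg (sw w p)).eq_or_lt with h | h
  · rw [← h] at h1; simp at h1
  · exact h

/-- a distance-like function that certifies that `w0` can be reached from every word -/
def Certificate (w0 : Word n) (d : Word n → ℕ) : Prop :=
  ∀ w, w ≠ w0 → ∃ p, w p < w (leftPos p) ∧ d (sw w p) < d w

lemma pos_target (x : Fin n → ℝ) (hx : ∀ i, 0 < x i) (g : Word n → ℝ) (hg : ∀ w, 0 ≤ g w)
    (hb : Balanced x g) (w0 : Word n) (d : Word n → ℕ) (hd : Certificate w0 d) :
    ∀ (m : ℕ) (w : Word n), d w ≤ m → 0 < g w → 0 < g w0 := by
  intro m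
  induction m with
  | zero =>
    intro w hm hw
    by_cases h : w = w0
    · rw [← h]; exact hw
    · obtain ⟨p, _, h2⟩ := hd w h
      omega
  | succ m ih =>
    intro w hm hw
    by_cases h : w = w0
    · rw [← h]; exact hw
    · obtain ⟨p, h1, h2⟩ := hd w h
      exact ih (sw w p) (by omega) (pos_step x hx g hg hb w p h1 hw)

lemma balanced_zero (x : Fin n → ℝ) (hx : ∀ i, 0 < x i) (w0 : Word n) (d : Word n → ℕ)
    (hd : Certificate w0 d) (u : Word n → ℝ) (hb : Balanced x u) (hs : ∑ w, u w = 0) :
    ∀ w, u w = 0 := by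
  have hab := balanced_abs x hx u hb
  have hpos : Balanced x (fun w => |u w| + u w) := balanced_add x _ _ hab hb
  have hneg : Balanced x (fun w => |u w| + (-1) * u w) :=
    balanced_add x _ _ hab (balanced_smul x (-1) u hb)
  have hposn : ∀ w, 0 ≤ |u w| + u w := fun w => by linarith [neg_abs_le (u w)]
  have hnegn : ∀ w, 0 ≤ |u w| + (-1) * u w := fun w => by linarith [le_abs_self (u w)]
  have h1 : (∃ w, 0 < u w) → 0 < u w0 := by
    rintro ⟨w, hw⟩
    have := pos_target x hx _ hposn hpos w0 d hd (d w) w le_rfl (by
      have := abs_nonneg (u w); linarith)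
    by_contra hc
    push Not at hc
    rw [abs_of_nonpos hc] at this
    linarith
  have h2 : (∃ w, u w < 0) → u w0 < 0 := by
    rintro ⟨w, hw⟩
    have := pos_target x hx _ hnegn hneg w0 d hd (d w) w le_rfl (by
      have := abs_nonneg (u w); linarith)
    by_contra hc
    push Not at hc
    rw [abs_of_nonneg hc] at this
    linarith
  by_cases hp : ∃ w, 0 < u w
  · have hnn : ∀ w ∈ (Finset.univ : Finset (Word n)), 0 ≤ u w := by
      intro w _
      by_contra hc
      push Not at hc
      have := h1 hp
      have := h2 ⟨w, hc⟩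
      linarith
    intro w
    exact (Finset.sum_eq_zero_iff_of_nonneg hnn).1 hs w (Finset.mem_univ _)
  · push Not at hp
    have hs' : ∑ w, (-(u w)) = 0 := by rw [Finset.sum_neg_distrib, hs, neg_zero]
    have hnn : ∀ w ∈ (Finset.univ : Finset (Word n)), 0 ≤ -(u w) := by
      intro w _
      linarith [hp w]
    intro w
    have := (Finset.sum_eq_zero_iff_of_nonneg hnn).1 hs' w (Finset.mem_univ _)
    linarith

/-- uniqueness of the stationary distribution, given a certificate -/
theorem stationary_unique (t : Fin n → ℝ) (ht : ∀ i, 0 < t i) (w0 : Word n) (d : Word n → ℕ)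
    (hd : Certificate w0 d) (π π' : Word n → ℝ) (h : IsStationary t π) (h' : IsStationary t π') :
    π' = π := by
  have hx : ∀ i, 0 < (fun i => 1 / t i) i := fun i => one_div_pos.2 (ht i)
  have hb := balanced_of_weak t π h.invariant
  have hb' := balanced_of_weak t π' h'.invariant
  have hbd : Balanced (fun i => 1 / t i) (fun w => π' w + (-1) * π w) :=
    balanced_add _ _ _ hb' (balanced_smul _ (-1) _ hb)
  have hs : ∑ w, (π' w + (-1) * π w) = 0 := by
    rw [Finset.sum_add_distrib, ← Finset.mul_sum, h.sum_eq_one, h'.sum_eq_one]; ring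
  have := balanced_zero _ hx w0 d hd _ hbd hs
  funext w
  have := this w
  linarith

/-- a positive balanced weight, normalised, is a stationary distribution -/
theorem stationary_of_weight (t : Fin n → ℝ) (v : Word n → ℝ) (hv : ∀ w, 0 < v w)
    (hb : Balanced (fun i => 1 / t i) v) :
    IsStationary t (fun w => (∑ w, v w)⁻¹ * v w) := by
  have hZ : 0 < ∑ w, v w := Finset.sum_pos (fun w _ => hv w) ⟨1, Finset.mem_univ _⟩
  refine ⟨fun w => mul_nonneg (inv_nonneg.2 hZ.le) (hv w).le, ?_, ?_⟩
  · rw [← Finset.mul_sum]
    exact inv_mul_cancel₀ hZ.ne'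
  · exact weak_of_balanced t _ (balanced_smul _ _ v hb)

end Pool.Agent.Helper58.Tasep
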