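import Pool.Agent.Helper58.TasepSix

set_option autoImplicit false

namespace Pool.Agent.Helper58.Tasep

open Finset

def vec {R : Type} (W : ℕ → ℕ → ℕ → ℕ → ℕ → ℕ → R) (w : Word 6) : R :=
  W (w 0).val (w 1).val (w 2).val (w 3).val (w 4).val (w 5).val

lemma lp0 : leftPos (0 : Fin 6) = 5 := by decide
lemma lp1 : leftPos (1 : Fin 6) = 0 := by decide
lemma lp2 : leftPos (2 : Fin 6) = 1 := by decide
lemma lp3 : leftPos (3 : Fin 6) = 2 := by decide
lemma lp4 : leftPos (4 : Fin 6) = 3 := by decide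
lemma lp5 : leftPos (5 : Fin 6) = 4 := by decide

lemma sw6 (w : Word 6) (p q : Fin 6) :
    sw w p q = if q = leftPos p then w p else if q = p then w (leftPos p) else w q := by
  simp only [sw, Equiv.Perm.coe_mul, Function.comp_apply, Equiv.swap_apply_def]
  split_ifs <;> rfl

variable {R : Type} (W : ℕ → ℕ → ℕ → ℕ → ℕ → ℕ → R)

lemma vec_sw0 (w : Word 6) : vec W (sw w 0) =
    W (w 5).val (w 1).val (w 2).val (w 3).val (w 4).val (w 0).val := by
  simp [vec, sw6, lp0]
lemma vec_sw1 (w : Word 6) : vec W (sw w 1) =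
    W (w 1).val (w 0).val (w 2).val (w 3).val (w 4).val (w 5).val := by
  simp [vec, sw6, lp1]
lemma vec_sw2 (w : Word 6) : vec W (sw w 2) =
    W (w 0).val (w 2).val (w 1).val (w 3).val (w 4).val (w 5).val := by
  simp [vec, sw6, lp2]
lemma vec_sw3 (w : Word 6) : vec W (sw w 3) =
    W (w 0).val (w 1).val (w 3).val (w 2).val (w 4).val (w 5).val := by
  simp [vec, sw6, lp3]
lemma vec_sw4 (w : Word 6) : vec W (sw w 4) =
    W (w 0).val (w 1).val (w 2).val (w 4).val (w 3).val (w 5).val := by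
  simp [vec, sw6, lp4]
lemma vec_sw5 (w : Word 6) : vec W (sw w 5) =
    W (w 0).val (w 1).val (w 2).val (w 3).val (w 5).val (w 4).val := by
  simp [vec, sw6, lp5]

lemma allWords_apply (P : ℕ → ℕ → ℕ → ℕ → ℕ → ℕ → Bool) (h : allWords P) (w : Word 6) :
    vec P w = true := by
  have hne : ∀ i j : Fin 6, i ≠ j → w i ≠ w j := fun i j hij h => hij (w.injective h)
  exact h (w 0) (w 1) (hne _ _ (by decide)) (w 2) ⟨hne _ _ (by decide), hne _ _ (by decide)⟩
    (w 3) ⟨hne _ _ (by decide), hne _ _ (by decide), hne _ _ (by decide)⟩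
    (w 4) ⟨hne _ _ (by decide), hne _ _ (by decide), hne _ _ (by decide), hne _ _ (by decide)⟩
    (w 5) ⟨hne _ _ (by decide), hne _ _ (by decide), hne _ _ (by decide), hne _ _ (by decide),
      hne _ _ (by decide)⟩

lemma bif_cast (a b : ℕ) (x : ℕ) :
    ((bif a.blt b then x else 0 : ℕ) : ℝ) = if a < b then (x : ℝ) else 0 := by
  by_cases h : a < b
  · have h' : a.blt b = true := by rw [Nat.blt_eq]; exact h
    rw [if_pos h, h']; rfl
  · rw [if_neg h]
    have : a.blt b = false := by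
      rw [← Bool.not_eq_true, Nat.blt_eq]; exact h
    rw [this]; simp

theorem balanced_six (X : ℕ → ℕ) (V : ℕ → ℕ → ℕ → ℕ → ℕ → ℕ → ℕ) (h : allWords (chkW X V)) :
    Balanced (fun i : Fin 6 => (X i.val : ℝ)) (fun w => ((vec V w : ℕ) : ℝ)) := by
  intro w
  have hw := allWords_apply _ h w
  have h1 : inN X V (w 0).val (w 1).val (w 2).val (w 3).val (w 4).val (w 5).val =
      V (w 0).val (w 1).val (w 2).val (w 3).val (w 4).val (w 5).val *
        outN X (w 0).val (w 1).val (w 2).val (w 3).val (w 4).val (w 5).val := by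
    simp only [vec, chkW, Bool.and_eq_true] at hw
    exact Nat.eq_of_beq_eq_true hw.1
  have h2 : inflow (fun i : Fin 6 => (X i.val : ℝ)) (fun w => ((vec V w : ℕ) : ℝ)) w =
      ((inN X V (w 0).val (w 1).val (w 2).val (w 3).val (w 4).val (w 5).val : ℕ) : ℝ) := by
    unfold inflow inN
    rw [Fin.sum_univ_six]
    simp only [vec_sw0, vec_sw1, vec_sw2, vec_sw3, vec_sw4, vec_sw5, lp0, lp1, lp2, lp3, lp4, lp5]
    simp only [Nat.cast_add, bif_cast, Nat.cast_mul, Fin.lt_def]
  have h3 : outRate (fun i : Fin 6 => (X i.val : ℝ)) w =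
      ((outN X (w 0).val (w 1).val (w 2).val (w 3).val (w 4).val (w 5).val : ℕ) : ℝ) := by
    unfold outRate outN
    rw [Fin.sum_univ_six]
    simp only [lp0, lp1, lp2, lp3, lp4, lp5]
    simp only [Nat.cast_add, bif_cast, Fin.lt_def]
  rw [h2, h3, h1]
  push_cast
  rfl

theorem pos_six (X : ℕ → ℕ) (V : ℕ → ℕ → ℕ → ℕ → ℕ → ℕ → ℕ) (h : allWords (chkW X V))
    (w : Word 6) : 0 < ((vec V w : ℕ) : ℝ) := by
  have hw := allWords_apply _ h w
  simp only [vec, chkW, Bool.and_eq_true] at hw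
  have h2 := hw.2
  rw [Nat.blt_eq] at h2
  simp only [vec]
  exact_mod_cast h2

theorem certificate_six : Certificate (1 : Word 6) (fun w => vec dist6 w) := by
  intro w hne
  have hw := allWords_apply _ chkD_all w
  simp only [vec, chkD, Bool.or_eq_true, Bool.and_eq_true, Nat.blt_eq] at hw
  rcases hw with (((⟨h1, h2⟩ | ⟨h1, h2⟩) | ⟨h1, h2⟩) | ⟨h1, h2⟩) | (⟨h1, h2⟩ | (⟨h1, h2⟩ | h))
  · exact ⟨0, by rw [lp0]; exact h1, by show vec dist6 (sw w 0) < vec dist6 w; rw [vec_sw0]; exact h2⟩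
  · exact ⟨1, by rw [lp1]; exact h1, by show vec dist6 (sw w 1) < vec dist6 w; rw [vec_sw1]; exact h2⟩
  · exact ⟨2, by rw [lp2]; exact h1, by show vec dist6 (sw w 2) < vec dist6 w; rw [vec_sw2]; exact h2⟩
  · exact ⟨3, by rw [lp3]; exact h1, by show vec dist6 (sw w 3) < vec dist6 w; rw [vec_sw3]; exact h2⟩
  · exact ⟨4, by rw [lp4]; exact h1, by show vec dist6 (sw w 4) < vec dist6 w; rw [vec_sw4]; exact h2⟩
  · exact ⟨5, by rw [lp5]; exact h1, by show vec dist6 (sw w 5) < vec dist6 w; rw [vec_sw5]; exact h2⟩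
  · exfalso
    apply hne
    obtain ⟨⟨⟨⟨⟨h0, h1⟩, h2⟩, h3⟩, h4⟩, h5⟩ := h
    have h0 := Nat.eq_of_beq_eq_true h0
    have h1 := Nat.eq_of_beq_eq_true h1
    have h2 := Nat.eq_of_beq_eq_true h2
    have h3 := Nat.eq_of_beq_eq_true h3
    have h4 := Nat.eq_of_beq_eq_true h4
    have h5 := Nat.eq_of_beq_eq_true h5
    ext p
    fin_cases p
    · simpa using h0
    · simpa using h1
    · simpa using h2
    · simpa using h3
    · simpa using h4
    · simpa using h5

lemma balanced_scale {n : ℕ} (c : ℝ) (x y : Fin n → ℝ) (u : Word n → ℝ) (hxy : ∀ i, y i = c * x i)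
    (h : Balanced x u) : Balanced y u := by
  intro w
  have h1 := h w
  have h2 : inflow y u w = c * inflow x u w := by
    unfold inflow
    rw [Finset.mul_sum]
    refine Finset.sum_congr rfl fun p _ => ?_
    split_ifs
    · rw [hxy]; ring
    · ring
  have h3 : outRate y w = c * outRate x w := by
    unfold outRate
    rw [Finset.mul_sum]
    refine Finset.sum_congr rfl fun p _ => ?_
    split_ifs
    · rw [hxy]
    · ring
  rw [h2, h3, h1]; ring

end Pool.Agent.Helper58.Tasep
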